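import Pool.Agent.H966R3.TreePart4

/-!
# `tp_r (K_{n,m})` is not `tc_r (K_{n,m})`
-/

namespace Pool.Agent.Results.MP_4e8562_co.CoverNotPartition

open Pool.Agent.H966R3.TreePart

/-- For every `r ≥ 2`, every `n ≥ 1` and every `m ≥ 2 r ^ n + r`,
`tc_r (K_{n,m}) < tp_r (K_{n,m})`. -/
theorem result (r n m : ℕ) (hr : 2 ≤ r) (hn : 1 ≤ n) (hm : 2 * r ^ n + r ≤ m) :
    tc r (completeBipartiteGraph (Fin n) (Fin m)) <
      tp r (completeBipartiteGraph (Fin n) (Fin m)) := by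
  have hN : 0 < r ^ n := Nat.pow_pos (by omega)
  have h1 := tc_le (r := r) (n := n) (m := m) (by omega) hn (by omega)
  have h2 := le_tp_sharp (r := r) (n := n) (m := m) (by omega) (by omega)
  have h3 : 2 ≤ (m - r) / r ^ n := (Nat.le_div_iff_mul_le hN).mpr (by omega)
  have h5 : r - 1 ≤ (r - 1) ^ n := Nat.le_self_pow (by omega) _
  have h4 : (r - 1) * 2 ≤ (r - 1) ^ n * ((m - r) / r ^ n) := Nat.mul_le_mul h5 h3
  omega

end Pool.Agent.Results.MP_4e8562_co.CoverNotPartition
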