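import Pool.Agent.H948R3.TPSimple
import Pool.Agent.H948R3.TPCode

set_option autoImplicit false

namespace Pool.Agent.Results.MP_4e8562_co.FixedSide

open Pool.Agent.H948R3.TP

/-- The tree partition number of `K_{n,m}` for fixed `n`, any number `r ≥ 2` of colours and large
`m`: two bounds that differ by less than `(r - 1) ^ n`, valid from an explicit `m` on; the upper
one is the exact value when `r = 2` or `r ^ n` divides `m - r`, and, for all sufficiently large
`m`, when `n ≤ q + 1` for every prime power `q` exactly dividing `r`. -/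
theorem result (r n : ℕ) (hr : 2 ≤ r) :
    (∀ m : ℕ, r + r ^ 2 * n + (2 * r + 1) * r ^ n * (n + 1 + r ^ n) ≤ m →
      r + (r - 1) ^ n * ((m - r) / r ^ n) ≤ tp r n m ∧
      tp r n m ≤ (fun M : ℕ => 1 + (r - 1) * M / r)^[n] m ∧
      (fun M : ℕ => 1 + (r - 1) * M / r)^[n] m ≤ r + (r - 1) ^ n * (m - r) / r ^ n ∧
      ((r = 2 ∨ r ^ n ∣ m - r) → tp r n m = (fun M : ℕ => 1 + (r - 1) * M / r)^[n] m)) ∧
    ((∀ p ∈ r.primeFactors, n ≤ p ^ r.factorization p + 1) →
      ∃ m0 : ℕ, ∀ m : ℕ, m0 ≤ m →
        tp r n m = (fun M : ℕ => 1 + (r - 1) * M / r)^[n] m) := by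
  have hpos : 0 < r ^ n := Nat.pow_pos (by omega)
  constructor
  · intro m hm
    have hthr : thr r n ≤ m := by
      unfold thr
      omega
    have hrm : r ≤ m := by
      refine le_trans ?_ hm
      rw [Nat.add_assoc]
      exact Nat.le_add_right _ _
    have hlow := lower_simple (n := n) (m := m) (r := r) (by omega) hrm
    have hup := tp_le_iter (n := n) (m := m) hr hthr
    have hnum : (hstep r)^[n] m ≤ r + (r - 1) ^ n * (m - r) / r ^ n := by
      have h2 := iter_le (r := r) (by omega) n (m - r)
      have h3 : r + (m - r) = m := by omega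
      rw [h3] at h2
      have h4 : (hstep r)^[n] m - r ≤ (r - 1) ^ n * (m - r) / r ^ n := by
        rw [Nat.le_div_iff_mul_le hpos, Nat.mul_comm, Nat.mul_sub]
        omega
      omega
    refine ⟨hlow, hup, hnum, ?_⟩
    rintro (h | h)
    · refine le_antisymm hup (hnum.trans ?_)
      subst h
      simpa using hlow
    · refine le_antisymm hup (hnum.trans ?_)
      obtain ⟨q, hq⟩ := h
      rw [hq, Nat.mul_div_cancel_left _ hpos] at hlow
      rw [hq, Nat.mul_left_comm, Nat.mul_div_cancel_left _ hpos]
      exact hlow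
  · intro h
    obtain ⟨m1, h1⟩ := lower_exact (n := n) hr
      (fun k _ => hasCode_fin (n := n) (k := k) r (by omega) h)
    refine ⟨max m1 (thr r n), fun m hm => le_antisymm ?_ ?_⟩
    · exact tp_le_iter hr ((le_max_right _ _).trans hm)
    · exact h1 m ((le_max_left _ _).trans hm)

end Pool.Agent.Results.MP_4e8562_co.FixedSide
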