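import Pool.Agent.H948R3.TPOA2

set_option autoImplicit false

namespace Pool.Agent.Results.MP_4e8562_co.OrthogonalArrays

open Pool.Agent.H948R3.TP

/-- For at least three colours, along explicit progressions of large `m`, the tree partition
number of `K_{n,m}` attains the general upper bound if and only if there is an orthogonal array of
strength `k` and index one with `n` factors on `r` symbols. -/
theorem result (r n k : ℕ) (hr : 3 ≤ r) (hk : k < n) :
    ∃ a0 : ℕ, ∀ a b : ℕ, a0 ≤ a → (r - 1) ^ (k + 1) * a = r ^ (n - k) * b + 1 →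
      tp r n (r + r ^ k * a) ≤ r + (r - 1) ^ (n - 1 - k) * b ∧
      (tp r n (r + r ^ k * a) = r + (r - 1) ^ (n - 1 - k) * b ↔ HasCode n k (Fin r)) :=
  oa_iff hr hk

end Pool.Agent.Results.MP_4e8562_co.OrthogonalArrays
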